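import Mathlib

/-!
# Kernels for vertex covers of bounded size

`exists_kernel`: every finite set `E` of edges has a subset `M` with at most `p (p + 1) + 1` elements such that every
vertex set of size at most `p` which covers `M` covers `E`.
-/

set_option autoImplicit false

namespace Pool.Agent.Helper46.DCKernel

variable {V : Type*} [DecidableEq V]

/-- Kernel lemma for vertex covers with at most `p` vertices (edges as unordered pairs). -/
theorem exists_kernel (E : Finset (Sym2 V)) (p : ℕ) :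
    ∃ M ⊆ E, M.card ≤ p * (p + 1) + 1 ∧
      ∀ J : Finset V, J.card ≤ p → (∀ e ∈ M, ∃ v ∈ J, v ∈ e) → ∀ e ∈ E, ∃ v ∈ J, v ∈ e := by
  classical
  set F : Finset (Finset (Sym2 V)) := E.powerset.filter (fun M =>
    ∀ J : Finset V, J.card ≤ p → (∀ e ∈ M, ∃ v ∈ J, v ∈ e) → ∀ e ∈ E, ∃ v ∈ J, v ∈ e) with hF
  have hEF : E ∈ F := by
    simp only [hF, Finset.mem_filter, Finset.mem_powerset]
    exact ⟨Finset.Subset.refl _, fun J _ h => h⟩
  obtain ⟨M, hMF, hmin⟩ := Finset.exists_min_image F Finset.card ⟨E, hEF⟩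
  obtain ⟨hME, hM⟩ := by simpa only [hF, Finset.mem_filter, Finset.mem_powerset] using hMF
  refine ⟨M, hME, ?_, hM⟩
  -- every edge of `M` is missed by a small cover of the others
  have hJ : ∀ e ∈ M, ∃ J : Finset V, J.card ≤ p ∧ (∀ f ∈ M, f ≠ e → ∃ v ∈ J, v ∈ f) ∧
      ∀ v ∈ J, v ∉ e := by
    intro e he
    have hnot : M.erase e ∉ F := by
      intro h
      have h1 := hmin _ h
      have h2 := Finset.card_erase_lt_of_mem he
      omega
    have hsub : M.erase e ⊆ E := (Finset.erase_subset _ _).trans hME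
    simp only [hF, Finset.mem_filter, Finset.mem_powerset, hsub, true_and] at hnot
    push Not at hnot
    obtain ⟨J, hJp, hJc, g, hgE, hg⟩ := hnot
    refine ⟨J, hJp, fun f hf hfe => hJc f (Finset.mem_erase.2 ⟨hfe, hf⟩), ?_⟩
    intro v hv hve
    obtain ⟨w, hw, hwg⟩ := hM J hJp (fun f hf => by
      by_cases hfe : f = e
      · exact ⟨v, hv, hfe ▸ hve⟩
      · exact hJc f (Finset.mem_erase.2 ⟨hfe, hf⟩)) g hgE
    exact hg w hw hwg
  -- degrees in `M`
  have hdeg : ∀ v : V, (M.filter (fun e => v ∈ e)).card ≤ p + 1 := by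
    intro v
    rcases (M.filter (fun e => v ∈ e)).eq_empty_or_nonempty with h | ⟨e, he⟩
    · rw [h]; simp
    · rw [Finset.mem_filter] at he
      obtain ⟨J, hJp, hJc, hJe⟩ := hJ e he.1
      have hvJ : v ∉ J := fun h => hJe v h he.2
      have hinj : ((M.filter (fun e => v ∈ e)).erase e).card ≤ J.card := by
        have hx : ∀ f ∈ (M.filter (fun e => v ∈ e)).erase e, ∃ w ∈ J, f = s(v, w) := by
          intro f hf
          rw [Finset.mem_erase, Finset.mem_filter] at hf
          obtain ⟨w, hw, hwf⟩ := hJc f hf.2.1 hf.1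
          refine ⟨w, hw, ?_⟩
          have hvw : v ≠ w := fun h => hvJ (h ▸ hw)
          exact (Sym2.mem_and_mem_iff hvw).1 ⟨hf.2.2, hwf⟩
        refine (Finset.card_le_card (t := J.image (fun w => s(v, w))) ?_).trans Finset.card_image_le
        intro f hf
        obtain ⟨w, hw, rfl⟩ := hx f hf
        exact Finset.mem_image_of_mem _ hw
      have h1 : (M.filter (fun e => v ∈ e)).card =
          ((M.filter (fun e => v ∈ e)).erase e).card + 1 := by
        rw [Finset.card_erase_add_one (Finset.mem_filter.2 he)]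
      omega
  rcases M.eq_empty_or_nonempty with h | ⟨e, he⟩
  · rw [h]; simp
  · obtain ⟨J, hJp, hJc, hJe⟩ := hJ e he
    have h2 : (M.erase e).card ≤ p * (p + 1) := by
      have hsub : M.erase e ⊆ J.biUnion (fun v => M.filter (fun f => v ∈ f)) := by
        intro f hf
        rw [Finset.mem_erase] at hf
        obtain ⟨w, hw, hwf⟩ := hJc f hf.2 hf.1
        exact Finset.mem_biUnion.2 ⟨w, hw, Finset.mem_filter.2 ⟨hf.2, hwf⟩⟩
      refine (Finset.card_le_card hsub).trans ?_
      refine (Finset.card_biUnion_le_card_mul _ _ (p + 1) (fun v _ => hdeg v)).trans ?_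
      exact Nat.mul_le_mul_right _ hJp
    have h3 : M.card = (M.erase e).card + 1 := (Finset.card_erase_add_one he).symm
    omega

/-- The same for the edges of a graph inside a vertex set, with ordered pairs. -/
theorem exists_kernel_adj (G : SimpleGraph V) (X : Finset V) (p : ℕ) :
    ∃ M : Finset (V × V), (∀ a ∈ M, a.1 ∈ X ∧ a.2 ∈ X ∧ G.Adj a.1 a.2) ∧
      M.card ≤ p * (p + 1) + 1 ∧
      ∀ J : Finset V, J.card ≤ p → (∀ a ∈ M, a.1 ∈ J ∨ a.2 ∈ J) →
        ∀ x ∈ X, ∀ y ∈ X, G.Adj x y → x ∈ J ∨ y ∈ J := by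
  classical
  set E : Finset (Sym2 V) := ((X ×ˢ X).filter (fun a => G.Adj a.1 a.2)).image
    (fun a => s(a.1, a.2)) with hE
  have hEmem : ∀ x y, s(x, y) ∈ E ↔ x ∈ X ∧ y ∈ X ∧ G.Adj x y := by
    intro x y
    simp only [hE, Finset.mem_image, Finset.mem_filter, Finset.mem_product]
    constructor
    · rintro ⟨⟨a, b⟩, ⟨⟨ha, hb⟩, hab⟩, h⟩
      simp only at ha hb hab h
      rcases Sym2.eq_iff.1 h with ⟨rfl, rfl⟩ | ⟨rfl, rfl⟩
      · exact ⟨ha, hb, hab⟩
      · exact ⟨hb, ha, hab.symm⟩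
    · rintro ⟨hx, hy, hxy⟩
      exact ⟨(x, y), ⟨⟨hx, hy⟩, hxy⟩, rfl⟩
  obtain ⟨M, hME, hMc, hM⟩ := exists_kernel E p
  refine ⟨M.image Quot.out, ?_, Finset.card_image_le.trans hMc, ?_⟩
  · intro a ha
    obtain ⟨e, he, rfl⟩ := Finset.mem_image.1 ha
    have h1 : s((Quot.out e).1, (Quot.out e).2) = e := Quot.out_eq e
    have h2 := hME he
    rw [← h1, hEmem] at h2
    exact h2
  · intro J hJ hcov x hx y hy hxy
    obtain ⟨v, hv, hve⟩ := hM J hJ (fun e he => by
      have h1 : s((Quot.out e).1, (Quot.out e).2) = e := Quot.out_eq e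
      rcases hcov _ (Finset.mem_image_of_mem _ he) with h | h
      · exact ⟨_, h, by
          have h2 := Sym2.mem_mk_left (Quot.out e).1 (Quot.out e).2
          rwa [h1] at h2⟩
      · exact ⟨_, h, by
          have h2 := Sym2.mem_mk_right (Quot.out e).1 (Quot.out e).2
          rwa [h1] at h2⟩) s(x, y) ((hEmem x y).2 ⟨hx, hy, hxy⟩)
    rcases Sym2.mem_iff.1 hve with rfl | rfl
    · exact Or.inl hv
    · exact Or.inr hv

end Pool.Agent.Helper46.DCKernel
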